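import Pool.Agent.MP_c69980_ag.H43.Spec2

/-!
The first group of analytic facts on a semi-abelian variety.
-/

set_option autoImplicit false

namespace Pool.Agent.MP_c69980_ag.H43

open MvPolynomial H60 Finset Filter Topology

section GA1
variable {t a M : ℕ} {w : Fin M → Option (Fin t)} {ϑ : (Fin a → ℂ) → Fin M → ℂ}

/-- The projection to the abelian directions. -/
noncomputable def ga1A (t a : ℕ) : Pt t a →L[ℂ] (Fin a → ℂ) :=
  ContinuousLinearMap.pi fun i => ContinuousLinearMap.proj (Fin.natAdd t i)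

/-- The torus coordinate of a block. -/
noncomputable def ga1S (a : ℕ) (o : Option (Fin t)) : Pt t a →L[ℂ] ℂ :=
  o.elim 0 fun j => ContinuousLinearMap.proj (Fin.castAdd a j)

lemma ga1_eq (p : Pt t a) (c : Fin M) :
    TH w ϑ p c = Complex.exp (ga1S a (w c) p) * ϑ (ga1A t a p) c := by
  unfold TH Th ga1S
  cases w c
  · simp [ga1A]
  · rfl

lemma ga1_der (h : SemiAb w ϑ) (p : Pt t a) (c : Fin M) :
    DifferentiableAt ℂ (fun q => TH w ϑ q c) p ∧ ∀ v, fderiv ℂ (fun q => TH w ϑ q c) p v =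
      ga1S a (w c) v * TH w ϑ p c +
        Complex.exp (ga1S a (w c) p) * fderiv ℂ ϑ (ga1A t a p) (ga1A t a v) c := by
  have h1 := (ga1S a (w c)).hasFDerivAt.cexp (x := p)
  have h2 := (hasFDerivAt_pi'.1 ((h.hol (ga1A t a p)).hasFDerivAt.comp p
    (ga1A t a).hasFDerivAt)) c
  have h3 := h1.mul h2
  have e : (fun q => TH w ϑ q c) =
      (fun q => Complex.exp (ga1S a (w c) q)) * fun q => (ϑ ∘ ga1A t a) q c :=
    funext fun q => ga1_eq q c
  rw [e]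
  refine ⟨h3.differentiableAt, fun v => ?_⟩
  rw [h3.fderiv, ga1_eq]
  simp
  ring

lemma ga1_quo {E : Type} [NormedAddCommGroup E] [NormedSpace ℂ E] {f g : E → ℂ} {p v : E}
    (hf : DifferentiableAt ℂ f p) (hg : DifferentiableAt ℂ g p) (h0 : g p ≠ 0)
    (h : fderiv ℂ (fun q => f q / g q) p v = 0) :
    fderiv ℂ f p v = fderiv ℂ g p v / g p * f p := by
  have i := (hasFDerivAt_inv' (𝕜 := ℂ) h0).comp p hg.hasFDerivAt
  have j : HasFDerivAt (fun q => f q * (g q)⁻¹) _ p := hf.hasFDerivAt.mul i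
  simp only [div_eq_mul_inv] at h
  rw [j.fderiv] at h
  simp at h
  field_simp at h ⊢
  linear_combination h

lemma ga1_norm (p : Pt t a) (c : Fin M) :
    ‖TH w ϑ p c‖ = Real.exp (ga1S a (w c) p).re * ‖ϑ (ga1A t a p) c‖ := by
  rw [ga1_eq, norm_mul, Complex.norm_exp]

lemma ga1_re (o : Option (Fin t)) (p : Pt t a) : |(ga1S a o p).re| ≤ ‖p‖ := by
  refine (Complex.abs_re_le_norm _).trans ?_
  cases o
  · simp [ga1S]
  · exact norm_le_pi_norm p _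

lemma ga1_normA (p : Pt t a) : ‖ga1A t a p‖ ≤ ‖p‖ :=
  (pi_norm_le_iff_of_nonneg (norm_nonneg p)).2 fun _ => norm_le_pi_norm p _

/-- The growth conditions in exponential form. -/
lemma ga1_grow (h : SemiAb w ϑ) : ∃ ε C : ℝ, 0 < ε ∧ 1 ≤ C ∧
    (∀ α, ‖ϑ α‖ ≤ Real.exp (C * (1 + ‖α‖ ^ 2)) ∧ ∀ o, ∃ b, w b = o ∧ ‖ϑ α‖ ≤ C * ‖ϑ α b‖) ∧
    ∀ (p : Pt t a) o, ∃ b, w b = o ∧
      Real.exp ((ga1S a o p).re + ε * ‖ga1A t a p‖ ^ 2 - 2 * C) ≤ ‖TH w ϑ p b‖ := by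
  obtain ⟨ε, C, hε, hg⟩ := h.grow
  have hC : 1 ≤ C := by
    obtain ⟨h1, -, h3⟩ := hg 0
    obtain ⟨b, -, hb⟩ := h3 none
    have h4 : 0 < ‖ϑ 0‖ := (Real.exp_pos _).trans_le h1
    have h5 := norm_le_pi_norm (ϑ 0) b
    have h6 := norm_nonneg (ϑ 0 b)
    by_contra hn
    rw [not_le] at hn
    rcases h6.eq_or_lt with h7 | h7
    · rw [← h7, mul_zero] at hb
      linarith
    · nlinarith
  refine ⟨ε, C, hε, hC, fun α => (hg α).2, fun p o => ?_⟩
  obtain ⟨h1, -, h3⟩ := hg (ga1A t a p)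
  obtain ⟨b, rfl, hb⟩ := h3 o
  refine ⟨b, rfl, ?_⟩
  have h4 : C ≤ Real.exp C := by linarith [Real.add_one_le_exp C]
  have h5 : Real.exp (ε * ‖ga1A t a p‖ ^ 2 - C) ≤ Real.exp C * ‖ϑ (ga1A t a p) b‖ :=
    h1.trans (hb.trans (mul_le_mul_of_nonneg_right h4 (norm_nonneg _)))
  have e : (ga1S a (w b) p).re + ε * ‖ga1A t a p‖ ^ 2 - 2 * C =
      (ga1S a (w b) p).re + ((ε * ‖ga1A t a p‖ ^ 2 - C) - C) := by ring
  rw [ga1_norm, e, Real.exp_add, Real.exp_sub]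
  exact mul_le_mul_of_nonneg_left ((div_le_iff₀' (Real.exp_pos C)).2 h5) (Real.exp_pos _).le

lemma ga1_blk (h : SemiAb w ϑ) (p : Pt t a) (o : Option (Fin t)) :
    ∃ b, w b = o ∧ TH w ϑ p b ≠ 0 := by
  obtain ⟨ε, C, -, -, -, hk⟩ := ga1_grow h
  obtain ⟨b, h1, h2⟩ := hk p o
  exact ⟨b, h1, norm_pos_iff.1 ((Real.exp_pos _).trans_le h2)⟩

lemma ga1_immA (h : SemiAb w ϑ) (p v : Pt t a) (b : Fin M) (h0 : TH w ϑ p b ≠ 0)
    (H : ∀ c, w c = none → fderiv ℂ (fun q => TH w ϑ q c / TH w ϑ q b) p v = 0) :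
    ga1A t a v = 0 := by
  refine h.imm (ga1A t a p) _ (fderiv ℂ (fun q => TH w ϑ q b) p v / TH w ϑ p b) fun c hc => ?_
  have e := ga1_quo (ga1_der h p c).1 (ga1_der h p b).1 h0 (H c hc)
  rw [(ga1_der h p c).2, ga1_eq p c, hc] at e
  simpa [ga1S] using e

lemma ga1_gr (h : SemiAb w ϑ) : ∃ ε C : ℝ, 0 < ε ∧ 0 ≤ C ∧ ∀ p : Pt t a,
    ε * ∑ i, max (p i).re 0 - C ≤ Real.log ‖TH w ϑ p‖ ∧
    Real.log ‖TH w ϑ p‖ ≤ C * (‖p‖ ^ 2 + 1) ∧
    ∀ o, ∃ b, w b = o ∧ Real.exp (-(C * (‖p‖ + 1))) ≤ ‖TH w ϑ p b‖ := by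
  obtain ⟨ε, C, hε, hC, hu, hk⟩ := ga1_grow h
  have hK : 0 < ε⁻¹ := inv_pos.2 hε
  refine ⟨(((t + a : ℕ) + 1) * (1 + ε⁻¹))⁻¹, 2 * C + 1, by positivity, by linarith, fun p => ?_⟩
  have hp := norm_nonneg p
  have hL : ∀ o, (ga1S a o p).re + ε * ‖ga1A t a p‖ ^ 2 ≤ Real.log ‖TH w ϑ p‖ + 2 * C := by
    intro o
    obtain ⟨b, -, hb⟩ := hk p o
    have h1 := hb.trans (norm_le_pi_norm _ b)
    have := (Real.le_log_iff_exp_le ((Real.exp_pos _).trans_le h1)).2 h1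
    linarith
  refine ⟨?_, ?_, fun o => ?_⟩
  · set L := Real.log ‖TH w ϑ p‖ + 2 * C with hLd
    have hq : 0 ≤ ε * ‖ga1A t a p‖ ^ 2 := by positivity
    have h0 : ε * ‖ga1A t a p‖ ^ 2 ≤ L := by simpa [ga1S] using hL none
    have h1 : ‖ga1A t a p‖ ^ 2 ≤ ε⁻¹ * L := (le_inv_mul_iff₀ hε).2 h0
    have hL0 : 0 ≤ L := hq.trans h0
    have hL1 : 0 ≤ ε⁻¹ * L := by positivity
    have h2 : ∀ i, max (p i).re 0 ≤ (1 + ε⁻¹) * (L + 1) := by
      intro i
      refine max_le ?_ (by positivity)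
      induction i using Fin.addCases with
      | left j =>
        have : (p (Fin.castAdd a j)).re + ε * ‖ga1A t a p‖ ^ 2 ≤ L := hL (some j)
        nlinarith
      | right i =>
        have h3 : (p (Fin.natAdd t i)).re ≤ ‖ga1A t a p‖ :=
          (Complex.re_le_norm _).trans (norm_le_pi_norm (ga1A t a p) i)
        nlinarith [sq_nonneg (‖ga1A t a p‖ - 1), norm_nonneg (ga1A t a p)]
    have h3 : ∑ i, max (p i).re 0 ≤ ((t + a : ℕ) + 1) * (1 + ε⁻¹) * (L + 1) := by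
      have := sum_le_card_nsmul univ _ _ fun i _ => h2 i
      rw [card_univ, Fintype.card_fin, nsmul_eq_mul] at this
      have h4 : 0 ≤ (1 + ε⁻¹) * (L + 1) := by positivity
      nlinarith
    have h4 := (inv_mul_le_iff₀ (by positivity)).2 h3
    linarith
  · have h1 : ‖TH w ϑ p‖ ≤ Real.exp ((2 * C + 1) * (‖p‖ ^ 2 + 1)) := by
      refine (pi_norm_le_iff_of_nonneg (Real.exp_pos _).le).2 fun c => ?_
      rw [ga1_norm]
      have h2 := (norm_le_pi_norm _ c).trans (hu (ga1A t a p)).1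
      refine (mul_le_mul_of_nonneg_left h2 (Real.exp_pos _).le).trans ?_
      rw [← Real.exp_add, Real.exp_le_exp]
      have h3 := (abs_le.1 (ga1_re (w c) p)).2
      have h4 : ‖ga1A t a p‖ ^ 2 ≤ ‖p‖ ^ 2 := pow_le_pow_left₀ (norm_nonneg _) (ga1_normA p) 2
      have h5 := mul_le_mul_of_nonneg_left h4 (by linarith : 0 ≤ C)
      nlinarith [sq_nonneg (‖p‖ - 1), mul_nonneg (by linarith : 0 ≤ C) (sq_nonneg ‖p‖)]
    obtain ⟨b, -, hb⟩ := hk p none
    exact (Real.log_le_iff_le_exp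
      ((Real.exp_pos _).trans_le (hb.trans (norm_le_pi_norm _ b)))).2 h1
  · obtain ⟨b, h1, hb⟩ := hk p o
    refine ⟨b, h1, le_trans (Real.exp_le_exp.2 ?_) hb⟩
    have h3 := (abs_le.1 (ga1_re o p)).1
    have hq : 0 ≤ ε * ‖ga1A t a p‖ ^ 2 := by positivity
    nlinarith [mul_nonneg (by linarith : 0 ≤ C) hp]

end GA1

theorem sGA1 : SGA1 := by
  intro t a M w ϑ h
  refine ⟨fun p => differentiableAt_pi.2 fun c => (ga1_der h p c).1, fun p s c => ?_, ga1_blk h,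
    fun p v H => ?_, fun p v b _ h0 H i => congrFun (ga1_immA h p v b h0 H) i,
    fun y hy H => ?_, ga1_gr h, ?_⟩
  · unfold TH Th inT
    cases w c <;> simp [Complex.exp_add]
    ring
  · obtain ⟨b, hb, h0⟩ := ga1_blk h p none
    have hA := ga1_immA h p v b h0 fun c _ => H c b h0
    funext i
    induction i using Fin.addCases with
    | left j =>
      obtain ⟨c, hc, h1⟩ := ga1_blk h p (some j)
      have e := ga1_quo (ga1_der h p c).1 (ga1_der h p b).1 h0 (H c b h0)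
      rw [(ga1_der h p c).2, (ga1_der h p b).2, hA, hb, hc] at e
      simpa [ga1S, h1] using e
    | right i => exact congrFun hA i
  · obtain ⟨s, α, l, e⟩ := h.cl y (fun F d hF h0 => H F d hF (fun _ => trivial) fun p => h0 _ _) hy
    exact ⟨Fin.append s α, l, by simpa [TH] using e⟩
  · obtain ⟨ε, C, -, hC, hu, -⟩ := ga1_grow h
    refine ⟨C, hC, fun p hp o => ?_⟩
    have e : ∀ c, ‖TH w ϑ p c‖ = ‖ϑ (ga1A t a p) c‖ := by
      intro c
      have : (ga1S a (w c) p).re = 0 := by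
        cases w c
        · simp [ga1S]
        · exact hp _
      rw [ga1_norm, this, Real.exp_zero, one_mul]
    obtain ⟨b, h1, hb⟩ := (hu (ga1A t a p)).2 o
    refine ⟨b, h1, le_trans ?_ (e b ▸ hb)⟩
    exact (pi_norm_le_iff_of_nonneg (norm_nonneg _)).2 fun c => e c ▸ norm_le_pi_norm _ c

end Pool.Agent.MP_c69980_ag.H43
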