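import Pool.Agent.MP_c69980_ag.H43.Spec9

/-!
Sections of bounded weight with poles of growing order.
-/

set_option autoImplicit false

namespace Pool.Agent.MP_c69980_ag.H43

open H60 Finset

theorem pole_map {A B ι : Type} [CommRing A] [CommRing B] [Algebra ℂ A] [Algebra ℂ B]
    (φ : A →+* B) (hφ : ∀ c, φ (algebraMap ℂ A c) = algebraMap ℂ B c) (x : ι → A)
    (P : MvPolynomial ι ℂ) : φ (MvPolynomial.aeval x P) = MvPolynomial.aeval (φ ∘ x) P := by
  induction P using MvPolynomial.induction_on with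
  | C c => rw [MvPolynomial.aeval_C, MvPolynomial.aeval_C, hφ]
  | add p q hp hq => simp only [map_add, hp, hq]
  | mul_X p i hp => simp only [map_mul, hp, MvPolynomial.aeval_X, Function.comp]

section Pol
variable {F A ι : Type} [Field F] [CommRing A] [Algebra F A] (g : ι → A)

theorem pole_mem {n : ℕ} {x : A} : x ∈ Pol F g n ↔
    ∃ P : MvPolynomial ι F, P.totalDegree ≤ n ∧ MvPolynomial.aeval g P = x := by
  simp [Pol, MvPolynomial.mem_restrictTotalDegree]

theorem pole_mono {n m : ℕ} (h : n ≤ m) {x : A} (hx : x ∈ Pol F g n) : x ∈ Pol F g m :=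
  let ⟨P, h1, h2⟩ := (pole_mem g).1 hx; (pole_mem g).2 ⟨P, h1.trans h, h2⟩

theorem pole_mul {n m : ℕ} {x y : A} (hx : x ∈ Pol F g n) (hy : y ∈ Pol F g m) :
    x * y ∈ Pol F g (n + m) :=
  let ⟨P, h1, h2⟩ := (pole_mem g).1 hx
  let ⟨Q, h3, h4⟩ := (pole_mem g).1 hy
  (pole_mem g).2 ⟨P * Q, (MvPolynomial.totalDegree_mul P Q).trans (add_le_add h1 h3), by
    rw [map_mul, h2, h4]⟩

theorem pole_const (c : F) : algebraMap F A c ∈ Pol F g 0 :=
  (pole_mem g).2 ⟨MvPolynomial.C c, (MvPolynomial.totalDegree_C c).le, MvPolynomial.aeval_C _ _⟩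

theorem pole_gen {x : A} (hx : x ∈ Set.range g) : x ∈ Pol F g 1 := by
  obtain ⟨i, rfl⟩ := hx
  exact (pole_mem g).2 ⟨MvPolynomial.X i, (MvPolynomial.totalDegree_X i).le,
    MvPolynomial.aeval_X _ _⟩

theorem pole_pow {x : A} (hx : x ∈ Pol F g 1) (n : ℕ) : x ^ n ∈ Pol F g n := by
  induction n with
  | zero => simpa using pole_const (F := F) g 1
  | succ n ih => rw [pow_succ]; exact pole_mul g ih hx

end Pol

variable {K : Type} [Field K] [Algebra ℂ K]

/-- The coefficients of a polynomial in series with bounded coefficients are bounded. -/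
theorem pole_coeff {ι κ : Type} (W : ℕ → AddSubmonoid K)
    (mono : ∀ n m, n ≤ m → ∀ x ∈ W n, x ∈ W m)
    (mul : ∀ n m, ∀ x ∈ W n, ∀ y ∈ W m, x * y ∈ W (n + m)) (cst : ∀ c, algebraMap ℂ K c ∈ W 0)
    (x : κ → PW ι K) (hx : ∀ i, ∃ D, ∀ m, MvPowerSeries.coeff m (x i) ∈ W D)
    (P : MvPolynomial κ ℂ) :
    ∃ D, ∀ m, MvPowerSeries.coeff m (MvPolynomial.aeval x P : PW ι K) ∈ W D := by
  classical
  induction P using MvPolynomial.induction_on with
  | C c =>
    refine ⟨0, fun m => ?_⟩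
    rw [MvPolynomial.aeval_C, MvPowerSeries.algebraMap_apply, MvPowerSeries.coeff_C]
    split_ifs
    · exact cst c
    · exact zero_mem _
  | add p q hp hq =>
    obtain ⟨D, h1⟩ := hp
    obtain ⟨D', h2⟩ := hq
    refine ⟨D + D', fun m => ?_⟩
    rw [map_add, map_add]
    exact add_mem (mono _ _ (Nat.le_add_right _ _) _ (h1 m))
      (mono _ _ (Nat.le_add_left _ _) _ (h2 m))
  | mul_X p i hp =>
    obtain ⟨D, h1⟩ := hp
    obtain ⟨D', h2⟩ := hx i
    refine ⟨D + D', fun m => ?_⟩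
    rw [map_mul, MvPolynomial.aeval_X, MvPowerSeries.coeff_mul]
    exact sum_mem fun p _ => mul _ _ _ (h1 _) _ (h2 _)

omit [Algebra ℂ K] in
theorem pole_unit (V : ValuationSubring K) {x y : K} (hx : x ∈ V) (hy : y ∈ V) (h : x * y = 1) :
    V.valuation x = 1 := by
  refine le_antisymm ((V.valuation_le_one_iff _).2 hx) (not_lt.1 fun hl => ?_)
  have := mul_lt_one_of_lt_of_le hl ((V.valuation_le_one_iff _).2 hy)
  rw [← map_mul, h, map_one] at this
  exact lt_irrefl _ this

/-- A subtraction formula that does not vanish at the centre of `V`. -/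
theorem pole_sub {t a M : ℕ} {w : Fin M → Option (Fin t)} {Θ : Pt t a → Fin M → ℂ}
    {PP : PT M t a} (g1 : GA1 w Θ) (gk : GKsub w Θ PP) (V : ValuationSubring K)
    (hc : ∀ c, algebraMap ℂ K c ∈ V) (u : Fin M → K) (hu : ∀ c, u c ∈ V)
    (h1 : ∀ o, ∃ b, w b = o ∧ V.valuation (u b) = 1) (h2 : Eqs Θ u) (z : ℂ) (hz : z ≠ 0) :
    ∃ S d e, IsSub Θ S d e ∧
      ∃ c, V.valuation (sb S u (fun c => algebraMap ℂ K (Θ 0 c / z)) c) = 1 := by
  let _ : Algebra ℂ V := ((algebraMap ℂ K).codRestrict V.toSubring hc).toAlgebra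
  let _ : Algebra ℂ (IsLocalRing.ResidueField V) :=
    ((IsLocalRing.residue V).comp (algebraMap ℂ V)).toAlgebra
  let u' : Fin M → V := fun c => ⟨u c, hu c⟩
  have m1 := fun {ι : Type} => pole_map (ι := ι) (V.subtype : V →+* K) fun _ => rfl
  have m2 := fun {ι : Type} => pole_map (ι := ι) (IsLocalRing.residue V) fun _ => rfl
  have hr : ∀ x : V, IsLocalRing.residue V x ≠ 0 ↔ V.valuation (x : K) = 1 := fun x => by
    rw [Ne, IsLocalRing.residue_eq_zero_iff, V.valuation_lt_one_iff, not_lt]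
    exact ⟨fun h => le_antisymm (V.valuation_le_one x) h, fun h => h.ge⟩
  have o1 : OnG w Θ (IsLocalRing.residue V ∘ u') := by
    refine ⟨fun o => ?_, fun P d hP hP' => ?_⟩
    · obtain ⟨b, e1, e2⟩ := h1 o
      exact ⟨b, e1, (hr (u' b)).2 e2⟩
    · have : MvPolynomial.aeval u' P = 0 := Subtype.ext ((m1 u' P).trans (h2 P d hP hP'))
      rw [← m2, this, map_zero]
  have o2 : OnG w Θ fun c => algebraMap ℂ (IsLocalRing.ResidueField V) (Θ 0 c / z) := by
    refine ⟨fun o => ?_, fun P d hP hP' => ?_⟩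
    · obtain ⟨b, e1, e2⟩ := g1.blk 0 o
      exact ⟨b, e1, (map_ne_zero _).2 (div_ne_zero e2 hz)⟩
    · have e1 := pole_map (algebraMap ℂ (IsLocalRing.ResidueField V)) (fun _ => rfl)
        (z⁻¹ • Θ 0) P
      have e2 : MvPolynomial.aeval (Θ 0) P = 0 := hP' 0
      rw [aeval_smul_hom hP, e2, mul_zero, map_zero] at e1
      rw [e1]
      congr 2
      funext c
      simp [div_eq_inv_mul]
  obtain ⟨S, d, e, hS, hne⟩ := gk.ex _ _ _ o1 o2
  obtain ⟨c, hc'⟩ := Function.ne_iff.1 hne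
  refine ⟨S, d, e, hS, c, ?_⟩
  have e1 := m1 (Sum.elim u' fun c => algebraMap ℂ V (Θ 0 c / z)) (S c)
  have e2 := m2 (Sum.elim u' fun c => algebraMap ℂ V (Θ 0 c / z)) (S c)
  rw [Sum.comp_elim] at e1 e2
  have e3 := (hr _).1 fun h => hc' (e2.symm.trans h)
  exact (congrArg V.valuation e1).symm.trans e3

theorem pole_tay (V : ValuationSubring K) (hc : ∀ c, algebraMap ℂ K c ∈ V)
    (D : Derivation ℂ K K) (T : K →+* PW Unit K) (hT : Tay (fun _ => D) T) (q : K)
    (hq : V.valuation q < 1)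
    (grow : ∀ h, h ≠ 0 → V.valuation h ≠ 1 → V.valuation (D h) * V.valuation q = V.valuation h)
    (n : ℕ) : ∀ x, 1 < V.valuation x →
      V.valuation (PowerSeries.coeff n (T x)) * V.valuation q ^ n = V.valuation x := by
  induction n with
  | zero =>
    intro x _
    rw [pow_zero, mul_one, PowerSeries.coeff_zero_eq_constantCoeff_apply]
    exact congrArg _ (hT.zero x)
  | succ n ih =>
    intro x hx
    have x0 : x ≠ 0 := fun e => by simp [e] at hx
    have g := grow x x0 hx.ne'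
    have hD : 1 < V.valuation (D x) := not_le.1 fun hl =>
      (lt_asymm hx) (by rw [← g, mul_comm]; exact mul_lt_one_of_lt_of_le hq hl)
    have e1 := MvPowerSeries.coeff_pderiv (i := ()) (T x) (Finsupp.single () n)
    rw [hT.der, ← Finsupp.single_add, Finsupp.single_eq_same] at e1
    have e2 : PowerSeries.coeff n (T (D x)) = PowerSeries.coeff (n + 1) (T x) * (n + 1) := e1
    have e3 : V.valuation ((n : K) + 1) = 1 := by
      have n0 : (n : ℂ) + 1 ≠ 0 := Nat.cast_add_one_ne_zero n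
      have := pole_unit V (hc (n + 1)) (hc (n + 1)⁻¹) (by
        rw [← map_mul, mul_inv_cancel₀ n0, map_one])
      simpa using this
    have e4 := ih _ hD
    rw [e2, map_mul, e3, mul_one] at e4
    rw [pow_succ, ← mul_assoc, e4, g]

omit [Algebra ℂ K] in
theorem pole_dom (V : ValuationSubring K) (x τ : PowerSeries K)
    (hx : StrictMono fun n => V.valuation (PowerSeries.coeff n x))
    (h1 : ∀ n, PowerSeries.coeff n τ ∈ V) (h0 : V.valuation (PowerSeries.coeff 0 τ) = 1) (n : ℕ) :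
    V.valuation (PowerSeries.coeff n (x * τ)) = V.valuation (PowerSeries.coeff n x) := by
  rw [PowerSeries.coeff_mul, V.valuation.map_sum_eq_of_lt (j := (n, 0)) (by simp), map_mul, h0,
    mul_one]
  intro p hp
  rw [mem_sdiff, HasAntidiagonal.mem_antidiagonal, mem_singleton] at hp
  have : p.1 < n := by
    by_contra h
    exact hp.2 (Prod.ext (by omega) (by omega))
  rw [map_mul, map_mul, h0, mul_one]
  exact (mul_le_of_le_one_right' ((V.valuation_le_one_iff _).2 (h1 _))).trans_lt (hx this)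

omit [Algebra ℂ K] in
theorem pole_wt {M : ℕ} {u : Fin M → K} {c : K} (hc : c ≠ 0) {j : ℕ} {V : ValuationSubring K}
    {h : K} (H : Wt u j V h) : Wt (c • u) j V (h * c ^ j) := by
  intro b hb
  have c0 : 0 < V.valuation c := zero_lt_iff.2 ((Valuation.ne_zero_iff _).2 hc)
  have := H b fun b' => by
    have := hb b'
    simp only [Pi.smul_apply, smul_eq_mul, map_mul] at this
    exact le_of_mul_le_mul_left this c0
  rw [Pi.smul_apply, smul_eq_mul, mul_pow, mul_comm h, mul_div_mul_left _ _ (pow_ne_zero _ hc)]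
  exact this

theorem sPole (h1 : SH0) (h2 : STay) (h3 : SAddP) (h4 : STw) : SPole := by
  intro t a M w Θ PP K _ _ u F r lam d f G β V y q l₀ g1 gk bx hg dt ds hV
  classical
  obtain ⟨j, h, hv, hw⟩ := h1 t a M w Θ PP K u F r lam d f G β V y q l₀ bx hg dt ds.dvr hV
  have u0 : u (β none) ≠ 0 := (dt.ch none).2
  have ui : (u (β none))⁻¹ ≠ 0 := inv_ne_zero u0
  obtain ⟨u', hu'⟩ : ∃ u', u' = (u (β none))⁻¹ • u := ⟨_, rfl⟩
  have bx' : BX w Θ PP u' F lam d f := hu' ▸ bx.smul ui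
  have e0 : ∀ c, u' c = co β u (c, none) := fun c => by
    rw [hu', co, Pi.smul_apply, smul_eq_mul, div_eq_inv_mul]
  have e1 : u' (β none) = 1 := by rw [e0, co, div_self u0]
  have eu : u = u (β none) • u' := by rw [hu', smul_inv_smul₀ u0]
  have cF : ∀ c, algebraMap ℂ K c ∈ F := F.algebraMap_mem
  have hc : ∀ c, algebraMap ℂ K c ∈ V := fun c => dt.fV _ (cF c)
  have uV : ∀ c, u' c ∈ V := fun c => e0 c ▸ dt.cV _
  obtain ⟨T, hT⟩ := h2 K Unit (fun _ => d l₀) fun _ _ _ => rfl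
  obtain ⟨b₀, -, hb₀⟩ := g1.blk 0 none
  have hl : (Pi.single b₀ 1 : Fin M → ℂ) ⬝ᵥ Θ 0 ≠ 0 := by simpa using hb₀
  obtain ⟨b, hb⟩ := h3 t a M w Θ PP K u' F _ lam d f Unit (fun _ => d l₀) T _ gk bx'
    (fun _ => Or.inr ⟨l₀, rfl⟩) hT hl
  obtain ⟨S, e, e', hS, c₀, hc₀⟩ := pole_sub g1 gk.sub V hc u' uV (fun o => ⟨β o, (dt.ch o).1,
    pole_unit V (uV _) (dt.cV (β none, o)) (by
      rw [e0, co, co, div_mul_div_cancel₀ u0, div_self (dt.ch o).2])⟩) bx'.on.eqs _ hl
  obtain ⟨σ, hσ⟩ := hb.add S e e' hS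
  have eσ : σ ^ j = MvPolynomial.aeval (Sum.elim (MvPowerSeries.C ∘ u') b) (S (β none) ^ j) := by
    have := hσ (β none)
    rw [e1, map_one, mul_one] at this
    rw [map_pow, ← this, sb]
  have eσ1 : σ = MvPolynomial.aeval (Sum.elim (MvPowerSeries.C ∘ u') b) (S (β none)) := by
    have := hσ (β none)
    rw [e1, map_one, mul_one] at this
    rw [← this, sb]
  have key : ∀ (W : ℕ → AddSubmonoid K), (∀ n m, n ≤ m → ∀ x ∈ W n, x ∈ W m) →
      (∀ n m, ∀ x ∈ W n, ∀ y ∈ W m, x * y ∈ W (n + m)) → (∀ x ∈ F, x ∈ W 0) →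
      (∀ c, u' c ∈ W 1) → ∀ P : MvPolynomial (Fin M ⊕ Fin M) ℂ, ∃ D, ∀ m, MvPowerSeries.coeff m
        (MvPolynomial.aeval (Sum.elim (MvPowerSeries.C ∘ u') b) P : PW Unit K) ∈ W D :=
    fun W a1 a2 a3 a4 P => pole_coeff W a1 a2 (fun c => a3 _ (cF c)) _ (by
      rintro (c | c)
      · refine ⟨1, fun m => ?_⟩
        rw [Sum.elim_inl, Function.comp, MvPowerSeries.coeff_C]
        split_ifs
        · exact a4 c
        · exact zero_mem _
      · exact ⟨0, fun m => a3 _ (hb.cF c m)⟩) P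
  have keyV : ∀ P : MvPolynomial (Fin M ⊕ Fin M) ℂ, ∀ m, MvPowerSeries.coeff m
      (MvPolynomial.aeval (Sum.elim (MvPowerSeries.C ∘ u') b) P : PW Unit K) ∈ V := fun P =>
    (key (fun _ => V.toSubring.toAddSubgroup.toAddSubmonoid) (fun _ _ _ _ h => h)
      (fun _ _ _ h _ h' => V.toSubring.mul_mem h h') dt.fV uV P).elim fun _ h => h
  have σ0 : V.valuation (MvPowerSeries.constantCoeff σ) = 1 := by
    have a1 := congrArg MvPowerSeries.constantCoeff (hσ c₀)
    rw [map_mul, hT.zero, sb, pole_map (MvPowerSeries.constantCoeff : PW Unit K →+* K) (fun c => by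
      rw [MvPowerSeries.algebraMap_apply, MvPowerSeries.constantCoeff_C]), Sum.comp_elim] at a1
    have a2 : MvPowerSeries.constantCoeff ∘ (MvPowerSeries.C : K → PW Unit K) ∘ u' = u' :=
      funext fun c => MvPowerSeries.constantCoeff_C _
    have a3 : MvPowerSeries.constantCoeff ∘ b = _ := funext hb.zero
    rw [a2, a3] at a1
    rw [sb, a1, map_mul] at hc₀
    have a4 : MvPowerSeries.constantCoeff σ ∈ V := eσ1 ▸ keyV _ 0
    refine le_antisymm ((V.valuation_le_one_iff _).2 a4) (not_lt.1 fun hl => ?_)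
    exact (mul_lt_one_of_lt_of_le hl ((V.valuation_le_one_iff _).2 (uV c₀))).ne hc₀
  have q0 : V.valuation q ≠ 0 := fun e => by
    have := dt.tr
    rw [(Valuation.zero_iff _).1 e, map_zero, map_zero] at this
    exact zero_ne_one this
  obtain ⟨h₀, hh₀⟩ : ∃ h₀, h₀ = h / u (β none) ^ j := ⟨_, rfl⟩
  rw [← hh₀] at hv
  have ta := fun n => pole_tay V hc (d l₀) T hT q dt.lt ds.grow n h₀ hv
  have tn : ∀ n, V.valuation (PowerSeries.coeff n (T h₀)) ≠ 0 := fun n e => by
    have := ta n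
    rw [e, zero_mul] at this
    exact not_lt_zero (this ▸ hv)
  have tm : StrictMono fun n => V.valuation (PowerSeries.coeff n (T h₀)) :=
    strictMono_nat_of_lt_succ fun n => not_le.1 fun hl => by
      have a1 := (ta (n + 1)).trans (ta n).symm
      rw [pow_succ', ← mul_assoc] at a1
      have a2 := mul_right_cancel₀ (pow_ne_zero n q0) a1
      have a3 := mul_lt_mul_of_pos_left dt.lt (zero_lt_iff.2 (tn (n + 1)))
      rw [a2, mul_one] at a3
      exact not_lt.2 hl a3
  have td := pole_dom V (T h₀) (σ ^ j) tm (fun n => eσ ▸ keyV _ _) (by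
    rw [PowerSeries.coeff_zero_eq_constantCoeff_apply]
    change V.valuation (MvPowerSeries.constantCoeff (σ ^ j)) = 1
    rw [map_pow, map_pow, σ0, one_pow])
  refine ⟨e * j, fun n => PowerSeries.coeff n (T h₀ * σ ^ j) * u (β none) ^ (e * j),
    insert h₀ (insert (u (β none)) (univ.image u')), fun n => ?_, fun n m hnm => ?_,
    fun n V' hV' => ?_, fun N g C hC hg => ?_⟩
  · refine mul_ne_zero (fun e => tn n ?_) (pow_ne_zero _ u0)
    rw [← td, e, map_zero]
  · simp only [map_mul, td]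
    exact mul_lt_mul_of_pos_right (tm hnm)
      (zero_lt_iff.2 ((Valuation.ne_zero_iff _).2 (pow_ne_zero _ u0)))
  · have a1 : Wt u' j V' h₀ := by
      rw [hu', hh₀, div_eq_mul_inv, ← inv_pow]
      exact pole_wt ui (hw V' hV')
    have a2 := (h4 t a M Θ K u' Unit (fun _ => d l₀) T b V' S e e' σ
      (fun e => one_ne_zero (e1.symm.trans (congrFun e _))) hT (fun c => hg.fV V' hV' _ (cF c))
      (fun _ => hg.der V' hV' l₀) (fun c m => hg.fV V' hV' _ (hb.cF c m)) hS hσ).1 j h₀ a1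
      (Finsupp.single () n)
    have a3 := pole_wt u0 a2
    rwa [← eu] at a3
  · have m0 : h₀ ∈ Pol F g 1 := pole_gen g (hg (by simp))
    have m1 : u (β none) ∈ Pol F g 1 := pole_gen g (hg (by simp))
    have m2 : ∀ c, u' c ∈ Pol F g 1 := fun c => pole_gen g (hg (by simp))
    obtain ⟨D, hD⟩ := key (fun n => (Pol F g n).toAddSubmonoid) (fun _ _ h _ h' => pole_mono g h h')
      (fun _ _ _ h _ h' => pole_mul g h h') (fun x hx => pole_const g (⟨x, hx⟩ : F)) m2
      (S (β none) ^ j)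
    rw [← eσ] at hD
    have m3 := hT.ind (fun n => (Pol F g (1 + C * n)).restrictScalars ℂ)
      (fun n _ x hx => by
        have := hC l₀ _ x hx
        rwa [add_assoc, ← mul_add_one] at this) 0 h₀ m0
    refine ⟨1 + C + D + e * j, fun n => ?_⟩
    have m4 : 1 + C * n + D + e * j ≤ (1 + C + D + e * j) * (n + 1) := by
      nlinarith [Nat.zero_le (D * n), Nat.zero_le (e * j * n)]
    refine pole_mono g m4 (pole_mul g ?_ (pole_pow g m1 _))
    rw [PowerSeries.coeff_mul]
    refine sum_mem fun p hp => pole_mul g (pole_mono g ?_ (m3 _)) (hD _)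
    rw [zero_add, Finsupp.degree_single]
    have := HasAntidiagonal.mem_antidiagonal.1 hp
    exact Nat.add_le_add_left (Nat.mul_le_mul_left _ (by omega)) _

end Pool.Agent.MP_c69980_ag.H43
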